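import Pool.Agent.V11307.RI.Even

set_option autoImplicit false

/-!
# Integrality of `∑_{k<n} (15k+4) C(2k,k)^2 C(3k,k) (-27)^(n-1-k) / (2n (2n+1) C(2n,n))`
-/

namespace Pool.Agent.Results.MP_ccf7f2_nt.QTwo

open Finset Nat

/-- `T_n = ∑_{j=0}^{n-1} (-27)^{n-1-j} (15j+4) C(2j,j)^2 C(3j,j)` -/
def T (n : ℕ) : ℤ :=
  ∑ j ∈ range n, (-27) ^ (n - 1 - j) * (15 * (j : ℤ) + 4) * ((2 * j).choose j : ℤ) ^ 2 * ((3 * j).choose j : ℤ)

/-- `a_n` -/
def a (n : ℕ) : ℚ := (T n : ℚ) / (2 * (n : ℚ) * (2 * n + 1) * ((2 * n).choose n : ℚ))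

open V11307.RI

theorem T_succ (n : ℕ) : T (n + 1) = -27 * T n + (15 * (n : ℤ) + 4) * c3 n := by
  rw [T, sum_range_succ, T, mul_sum]
  congr 1
  · refine sum_congr rfl fun k hk => ?_
    rw [mem_range] at hk
    have : n + 1 - 1 - k = (n - 1 - k) + 1 := by omega
    rw [this, pow_succ]
    ring
  · unfold c3
    simp
    ring

/-! ### the WZ identity -/

def g (j k : ℕ) : ℚ :=
  2 * (-1) ^ j * ((2 * (j + k) + 1)! : ℚ) * ((3 * (j + k) + 2)! : ℚ) * ((2 * k)! : ℚ) /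
    (((j + k)! : ℚ) ^ 2 * ((2 * j + k + 1)! : ℚ) * ((j + 2 * k + 1)! : ℚ) * (k ! : ℚ) ^ 2)

def f (j k : ℕ) : ℚ :=
  (30 * ((j : ℚ) + k) ^ 2 - 15 * ((j : ℚ) + k) * j + 23 * ((j : ℚ) + k) + 3 * j ^ 2 - 5 * j + 4) *
    (-1) ^ j * ((3 * (j + k))! : ℚ) * ((2 * (j + k))! : ℚ) * ((2 * k)! : ℚ) /
    ((k ! : ℚ) ^ 2 * ((j + k)! : ℚ) ^ 2 * ((2 * j + k)! : ℚ) * ((j + 2 * k + 1)! : ℚ))

theorem wz (j k : ℕ) : g j (k + 1) - (-27) * g j k = f j (k + 1) - f (j + 1) k := by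
  have e1 : ((2 * (j + (k + 1)) + 1)! : ℚ) = (2 * j + 2 * k + 3) * ((2 * j + 2 * k + 2) * ((2 * (j + k) + 1)! : ℚ)) := by
    rw [show 2 * (j + (k + 1)) + 1 = 2 * (j + k) + 1 + 1 + 1 by ring, Nat.factorial_succ, Nat.factorial_succ]
    push_cast; ring
  have e1b : ((2 * (j + (k + 1)))! : ℚ) = (2 * j + 2 * k + 2) * ((2 * (j + k) + 1)! : ℚ) := by
    rw [show 2 * (j + (k + 1)) = 2 * (j + k) + 1 + 1 by ring, Nat.factorial_succ]
    push_cast; ring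
  have e1c : ((2 * (j + 1 + k))! : ℚ) = (2 * j + 2 * k + 2) * ((2 * (j + k) + 1)! : ℚ) := by
    rw [show 2 * (j + 1 + k) = 2 * (j + k) + 1 + 1 by ring, Nat.factorial_succ]
    push_cast; ring
  have e2 : ((3 * (j + (k + 1)) + 2)! : ℚ) = (3 * j + 3 * k + 5) * ((3 * j + 3 * k + 4) * ((3 * j + 3 * k + 3) *
      ((3 * (j + k) + 2)! : ℚ))) := by
    rw [show 3 * (j + (k + 1)) + 2 = 3 * (j + k) + 2 + 1 + 1 + 1 by ring, Nat.factorial_succ, Nat.factorial_succ,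
      Nat.factorial_succ]
    push_cast; ring
  have e2b : ((3 * (j + (k + 1)))! : ℚ) = (3 * j + 3 * k + 3) * ((3 * (j + k) + 2)! : ℚ) := by
    rw [show 3 * (j + (k + 1)) = 3 * (j + k) + 2 + 1 by ring, Nat.factorial_succ]
    push_cast; ring
  have e2c : ((3 * (j + 1 + k))! : ℚ) = (3 * j + 3 * k + 3) * ((3 * (j + k) + 2)! : ℚ) := by
    rw [show 3 * (j + 1 + k) = 3 * (j + k) + 2 + 1 by ring, Nat.factorial_succ]
    push_cast; ring
  have e4 : ((2 * (k + 1))! : ℚ) = (2 * k + 2) * ((2 * k + 1) * ((2 * k)! : ℚ)) := by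
    rw [show 2 * (k + 1) = 2 * k + 1 + 1 by ring, Nat.factorial_succ, Nat.factorial_succ]; push_cast; ring
  have e5 : ((k + 1)! : ℚ) = (k + 1) * (k ! : ℚ) := by
    rw [Nat.factorial_succ]; push_cast; ring
  have e6 : ((j + (k + 1))! : ℚ) = (j + k + 1) * ((j + k)! : ℚ) := by
    rw [show j + (k + 1) = j + k + 1 by ring, Nat.factorial_succ]; push_cast; ring
  have e7 : ((j + 1 + k)! : ℚ) = (j + k + 1) * ((j + k)! : ℚ) := by
    rw [show j + 1 + k = j + k + 1 by ring, Nat.factorial_succ]; push_cast; ring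
  have e8 : ((j + 2 * (k + 1) + 1)! : ℚ) = (j + 2 * k + 3) * ((j + 2 * k + 2) * ((j + 2 * k + 1)! : ℚ)) := by
    rw [show j + 2 * (k + 1) + 1 = j + 2 * k + 1 + 1 + 1 by ring, Nat.factorial_succ, Nat.factorial_succ]
    push_cast; ring
  have e8b : ((j + 1 + 2 * k + 1)! : ℚ) = (j + 2 * k + 2) * ((j + 2 * k + 1)! : ℚ) := by
    rw [show j + 1 + 2 * k + 1 = j + 2 * k + 1 + 1 by ring, Nat.factorial_succ]
    push_cast; ring
  have e9 : ((2 * j + (k + 1) + 1)! : ℚ) = (2 * j + k + 2) * ((2 * j + k + 1)! : ℚ) := by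
    rw [show 2 * j + (k + 1) + 1 = 2 * j + k + 1 + 1 by ring, Nat.factorial_succ]
    push_cast; ring
  have e9b : ((2 * j + (k + 1))! : ℚ) = ((2 * j + k + 1)! : ℚ) := by
    rw [show 2 * j + (k + 1) = 2 * j + k + 1 by ring]
  have e9c : ((2 * (j + 1) + k)! : ℚ) = (2 * j + k + 2) * ((2 * j + k + 1)! : ℚ) := by
    rw [show 2 * (j + 1) + k = 2 * j + k + 1 + 1 by ring, Nat.factorial_succ]
    push_cast; ring
  unfold g f
  rw [e1, e1b, e1c, e2, e2b, e2c, e4, e5, e6, e7, e8, e8b, e9, e9b, e9c]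
  push_cast
  have n1 : (k ! : ℚ) ≠ 0 := by exact_mod_cast k.factorial_ne_zero
  have n2 : ((j + k)! : ℚ) ≠ 0 := by exact_mod_cast (j + k).factorial_ne_zero
  have n7 : ((j + 2 * k + 1)! : ℚ) ≠ 0 := by exact_mod_cast (j + 2 * k + 1).factorial_ne_zero
  have n8 : ((2 * j + k + 1)! : ℚ) ≠ 0 := by exact_mod_cast (2 * j + k + 1).factorial_ne_zero
  have n3 : ((j : ℚ) + k + 1) ≠ 0 := by positivity
  have n4 : ((k : ℚ) + 1) ≠ 0 := by positivity
  have n5 : ((j : ℚ) + 2 * k + 2) ≠ 0 := by positivity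
  have n6 : ((j : ℚ) + 2 * k + 3) ≠ 0 := by positivity
  have n9 : (2 * (j : ℚ) + k + 2) ≠ 0 := by positivity
  generalize ((3 * (j + k) + 2)! : ℚ) = A
  generalize ((2 * (j + k) + 1)! : ℚ) = A'
  generalize ((2 * k)! : ℚ) = B
  generalize (k ! : ℚ) = C at *
  generalize ((j + k)! : ℚ) = D at *
  generalize ((j + 2 * k + 1)! : ℚ) = E at *
  generalize ((2 * j + k + 1)! : ℚ) = F at *
  rw [pow_succ]
  field_simp
  ring

theorem f_zero (n : ℕ) : f 0 n = (15 * (n : ℚ) + 4) * c3 n := by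
  have n1 : (n ! : ℚ) ≠ 0 := by exact_mod_cast n.factorial_ne_zero
  have n2 : ((2 * n)! : ℚ) ≠ 0 := by exact_mod_cast (2 * n).factorial_ne_zero
  have n4 : (2 * (n : ℚ) + 1) ≠ 0 := by positivity
  have e1 : ((2 * n + 1)! : ℚ) = (2 * n + 1) * ((2 * n)! : ℚ) := by
    rw [Nat.factorial_succ]; push_cast; ring
  rw [c3_eq]
  unfold f
  simp only [Nat.mul_zero, Nat.zero_add]
  rw [e1]
  push_cast
  field_simp
  ring_nf

theorem g_f {n : ℕ} (hn : 1 ≤ n) : g n 0 = f n 0 := by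
  obtain ⟨m, rfl⟩ : ∃ m, n = m + 1 := ⟨n - 1, by omega⟩
  have e1 : ((3 * (m + 1 + 0) + 2)! : ℚ) = (3 * m + 5) * ((3 * m + 4) * ((3 * (m + 1 + 0))! : ℚ)) := by
    rw [Nat.factorial_succ, Nat.factorial_succ]
    push_cast; ring
  have e2 : ((2 * (m + 1 + 0) + 1)! : ℚ) = (2 * m + 3) * ((2 * (m + 1 + 0))! : ℚ) := by
    rw [Nat.factorial_succ]
    push_cast; ring
  have e3 : ((2 * (m + 1) + 0)! : ℚ) = ((2 * (m + 1 + 0))! : ℚ) := rfl
  unfold g f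
  rw [e1, e2, e3]
  have n2 : ((m + 1 + 0)! : ℚ) ≠ 0 := by exact_mod_cast (m + 1 + 0).factorial_ne_zero
  have n7 : ((m + 1 + 2 * 0 + 1)! : ℚ) ≠ 0 := by exact_mod_cast (m + 1 + 2 * 0 + 1).factorial_ne_zero
  have n8 : ((2 * (m + 1 + 0))! : ℚ) ≠ 0 := by exact_mod_cast (2 * (m + 1 + 0)).factorial_ne_zero
  have n3 : (2 * (m : ℚ) + 3) ≠ 0 := by positivity
  push_cast
  generalize ((3 * (m + 1 + 0))! : ℚ) = A
  generalize ((2 * (m + 1 + 0))! : ℚ) = A' at *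
  generalize ((m + 1 + 0)! : ℚ) = D at *
  generalize ((m + 1 + 2 * 0 + 1)! : ℚ) = E at *
  field_simp
  ring

theorem S_eq (n : ℕ) : (T (n + 1) : ℚ) = ∑ j ∈ range (n + 1), g j (n - j) := by
  refine V11307.RI.closed (m := -27) (f := f) wz (fun n hn => g_f hn) (fun n => (T n : ℚ))
    (fun n => (15 * (n : ℚ) + 4) * c3 n) ?_ (fun n => by rw [T_succ]; push_cast; ring)
    (fun n _ => f_zero n) n
  norm_num [T, g, Nat.factorial]

/-- the closed form as a sum of integers -/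
def u (n : ℕ) : ℤ := ∑ j ∈ range (n + 1),
  (-1) ^ j * ((((n + j + 1) + ((n - j) + n + 1)).choose (n + j + 1) * (2 * (n - j)).choose (n - j) : ℕ) : ℤ)

theorem g_eq (j k : ℕ) : g j k = 2 * (2 * (j + k : ℕ) + 1) * ((2 * (j + k)).choose (j + k) : ℚ) *
    ((-1) ^ j * ((((j + k + j + 1) + (k + (j + k) + 1)).choose (j + k + j + 1) : ℚ) * ((2 * k).choose k : ℚ))) := by
  rw [Nat.cast_choose ℚ (show j + k + j + 1 ≤ (j + k + j + 1) + (k + (j + k) + 1) by omega),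
    choose_q, choose_q,
    show (j + k + j + 1) + (k + (j + k) + 1) - (j + k + j + 1) = j + 2 * k + 1 by omega,
    show (j + k + j + 1) + (k + (j + k) + 1) = 3 * (j + k) + 2 by ring,
    show j + k + j + 1 = 2 * j + k + 1 by ring]
  have e1 : ((2 * (j + k) + 1)! : ℚ) = (2 * (j + k) + 1) * ((2 * (j + k))! : ℚ) := by
    rw [Nat.factorial_succ]; push_cast; ring
  unfold g
  rw [e1]
  have n1 : (k ! : ℚ) ≠ 0 := by exact_mod_cast k.factorial_ne_zero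
  have n2 : ((j + k)! : ℚ) ≠ 0 := by exact_mod_cast (j + k).factorial_ne_zero
  have n7 : ((2 * (j + k))! : ℚ) ≠ 0 := by exact_mod_cast (2 * (j + k)).factorial_ne_zero
  have n10 : ((j + 2 * k + 1)! : ℚ) ≠ 0 := by exact_mod_cast (j + 2 * k + 1).factorial_ne_zero
  have n11 : ((2 * j + k + 1)! : ℚ) ≠ 0 := by exact_mod_cast (2 * j + k + 1).factorial_ne_zero
  push_cast
  field_simp

theorem T_closed (n : ℕ) : T (n + 1) = 2 * ((2 * (n : ℤ) + 1) * ((2 * n).choose n : ℤ)) * u n := by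
  have h : (T (n + 1) : ℚ) = 2 * ((2 * (n : ℚ) + 1) * ((2 * n).choose n : ℚ)) * (u n : ℚ) := by
    rw [S_eq, u]
    push_cast
    rw [mul_sum]
    refine sum_congr rfl fun j hj => ?_
    rw [mem_range] at hj
    obtain ⟨k, rfl⟩ : ∃ k, n = j + k := ⟨n - j, by omega⟩
    rw [show j + k - j = k by omega, g_eq]
    push_cast
    ring
  exact_mod_cast h

theorem even_u (n : ℕ) : (2 : ℤ) ∣ u n := by
  refine dvd_sum fun j hj => ?_
  rw [mem_range] at hj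
  refine Dvd.dvd.mul_left ?_ _
  have h : 2 ∣ ((n + j + 1) + ((n - j) + n + 1)).choose (n + j + 1) * (2 * (n - j)).choose (n - j) := by
    rcases Nat.lt_or_ge j n with h | h
    · exact Dvd.dvd.mul_left (V11307.RI.two_dvd (by omega)) _
    · have : j = n := by omega
      subst this
      refine Dvd.dvd.mul_right ?_ _
      rw [Nat.sub_self]
      have h := even_top j
      rwa [← Nat.choose_symm_of_eq_add (show 3 * j + 2 = j + j + 1 + (j + 1) by ring),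
        show 3 * j + 2 = j + j + 1 + (0 + j + 1) by ring] at h
  exact_mod_cast h

theorem dvd_T (n : ℕ) : ((4 * D n : ℕ) : ℤ) ∣ 3 ^ 3 * T (n + 1) := by
  obtain ⟨t, hT⟩ := even_u n
  obtain ⟨t', hT'⟩ := even_u (n + 1)
  have h1 := T_succ (n + 1)
  rw [T_closed, T_closed, hT, hT'] at h1
  obtain ⟨w, hw⟩ := V11307.RI.fuss (n + 1)
  unfold c3 at h1
  rw [hw] at h1
  have hc : ((n : ℤ) + 1) * ((2 * (n + 1)).choose (n + 1) : ℤ) = 2 * (2 * n + 1) * ((2 * n).choose n : ℤ) := by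
    exact_mod_cast central n
  have hpos : ((2 * (n + 1)).choose (n + 1) : ℤ) ≠ 0 := by exact_mod_cast (choose_pos' (n + 1)).ne'
  push_cast at h1
  have h4 : 4 * (2 * (n : ℤ) + 3) * t' = -54 * (n + 1) * t +
      (2 * n + 3) * ((15 * n + 19) * (w : ℤ) * ((2 * (n + 1)).choose (n + 1) : ℤ)) := by
    apply mul_left_cancel₀ hpos
    linear_combination h1 + 54 * t * hc
  have h6 : (2 * (n : ℤ) + 3) ∣ (2 * (n + 1)) * (27 * t) :=
    ⟨(15 * n + 19) * (w : ℤ) * ((2 * (n + 1)).choose (n + 1) : ℤ) - 4 * t', by linear_combination h4⟩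
  have h7 : IsCoprime (2 * (n : ℤ) + 3) (2 * (n + 1)) := (cop2 n).mul_right (cop4 n)
  obtain ⟨z, hz⟩ := h7.dvd_of_dvd_mul_left h6
  refine ⟨z, ?_⟩
  rw [T_closed, hT]
  unfold D
  push_cast
  linear_combination 4 * (2 * (n : ℤ) + 1) * ((2 * n).choose n : ℤ) * hz

/-- **Full answer to Q2.** -/
theorem result : ∀ n : ℕ, 1 ≤ n →
    ((∀ m : ℕ, 1 ≤ m → 2 * n + 1 ≠ 3 ^ m) → ∃ z : ℤ, a n = z) ∧
    (∀ m : ℕ, 1 ≤ m → 2 * n + 1 = 3 ^ m → ∃ z : ℤ, 3 * a n = z ∧ ¬ 3 ∣ z) := by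
  intro n hn
  obtain ⟨K, rfl⟩ : ∃ K, n = K + 1 := ⟨n - 1, by omega⟩
  have hq : a (K + 1) * ((4 * D K : ℕ) : ℚ) = T (K + 1) := by
    have h2 := D_q' K
    have hD : (D K : ℚ) ≠ 0 := by exact_mod_cast (D_pos K).ne'
    have h3 : 2 * ((K + 1 : ℕ) : ℚ) * (2 * ((K + 1 : ℕ) : ℚ) + 1) * ((2 * (K + 1)).choose (K + 1) : ℚ) =
        4 * (D K : ℚ) := by linear_combination 2 * h2
    rw [a, h3]
    push_cast
    field_simp
  obtain ⟨h1, h2⟩ := final_q good3_c3 (m := -27) (a := 15) (b := 4) (by norm_num) (by norm_num) (S := T) (by simp [T])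
    T_succ (κ := 4) (by norm_num) (K := K) (e := 3) (dvd_T K) hq
  refine ⟨fun h => h1 fun t ht => ?_, fun t _ ht => h2 t (by omega)⟩
  refine h t ?_ (by omega)
  by_contra hh
  have : t = 0 := by omega
  rw [this] at ht
  omega

end Pool.Agent.Results.MP_ccf7f2_nt.QTwo
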